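import Pool.Agent.H76.GM.D6
import Pool.Agent.H76.GM.E6
import Pool.Agent.H88.GN.Pm
import Pool.Agent.H42.GN.Ig

/-!
Project GN2 (MP_78d38b), parts (CYC) and (PAR) (helper95): the decomposition groups are cyclic; the parity of the
numbers `lam`.
-/

set_option autoImplicit false
set_option linter.unusedSectionVars false
open scoped Classical

open WithZero NumberField IsDedekindDomain H38RT
open H38T1 (SC sc scu rep eo la si OddP)
open H76PP (Cub LC ev scm dn)
open H30ZO (nb)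
open H88GX (Ext)
open H36CY (Stb)

namespace H95G2

section Dec

variable {K F : Type} [Field K] [NumberField K] [Field F] [NumberField F] [Algebra K F]

theorem stb_of_gq {g : F ≃ₐ[K] F} {W : HeightOneSpectrum (𝓞 F)} (h : H88OD.gq g • W = W) :
    Stb K W g := by
  intro y
  have h1 := H38T1.val_smul (H88OD.gq g) W y
  rw [h] at h1
  exact h1

theorem gq_of_stb {g : F ≃ₐ[K] F} {W : HeightOneSpectrum (𝓞 F)} (h : Stb K W g) :
    H88OD.gq g • W = W := by
  apply HeightOneSpectrum.ext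
  ext x
  have h1 : (x ∈ (H88OD.gq g • W).asIdeal) ↔ (H88OD.gq g • W).valuation F (x : F) < 1 :=
    ((H88OD.gq g • W).valuation_lt_one_iff_mem (K := F) x).symm
  have h2 : (x ∈ W.asIdeal) ↔ W.valuation F (x : F) < 1 :=
    (W.valuation_lt_one_iff_mem (K := F) x).symm
  have h3 : (H88OD.gq g • W).valuation F (x : F) = W.valuation F (x : F) := by
    have h4 := H38T1.val_smul (H88OD.gq g) W (g.symm (x : F))
    rw [H88OD.gq_apply, AlgEquiv.apply_symm_apply] at h4
    rw [h4]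
    have h5 := h (g.symm (x : F))
    rw [AlgEquiv.apply_symm_apply] at h5
    exact h5.symm
  rw [h1, h2, h3]

theorem gq_iff {g : F ≃ₐ[K] F} {W : HeightOneSpectrum (𝓞 F)} :
    H88OD.gq g • W = W ↔ Stb K W g :=
  ⟨stb_of_gq, gq_of_stb⟩

/-- The decomposition group. -/
def Dc (K : Type) {F : Type} [Field K] [NumberField K] [Field F] [NumberField F] [Algebra K F]
    (W : HeightOneSpectrum (𝓞 F)) : Subgroup (F ≃ₐ[K] F) where
  carrier := {g | H88OD.gq g • W = W}
  mul_mem' := by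
    intro g h hg hh
    change H88OD.gq (g * h) • W = W
    have e : H88OD.gq (g * h) = H88OD.gq g * H88OD.gq h := rfl
    rw [e, mul_smul, show H88OD.gq h • W = W from hh]
    exact hg
  one_mem' := by
    change H88OD.gq (1 : F ≃ₐ[K] F) • W = W
    exact one_smul _ W
  inv_mem' := by
    intro g hg
    change H88OD.gq g⁻¹ • W = W
    have e : H88OD.gq g⁻¹ = (H88OD.gq g)⁻¹ := rfl
    rw [e, inv_smul_eq_iff]
    exact (show H88OD.gq g • W = W from hg).symm

theorem mem_Dc {W : HeightOneSpectrum (𝓞 F)} {g : F ≃ₐ[K] F} :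
    g ∈ Dc K W ↔ H88OD.gq g • W = W := Iff.rfl

/-- The decomposition group of an unramified place is cyclic. -/
theorem cyc (hgal : IsGalois K F) {W : HeightOneSpectrum (𝓞 F)} (hram : ¬ H73P2.Ram K W) :
    ∃ φ : F ≃ₐ[K] F, Dc K W = Subgroup.zpowers φ := by
  obtain ⟨φ, hφ1, hφ2⟩ := H36O2.exists_frob (K := K) W
  have hφ : H76GM.Frb K W φ := ⟨hφ1, hφ2⟩
  refine ⟨φ, le_antisymm (fun g hg => H76GM.stb_pow hram hφ (stb_of_gq hg)) ?_⟩
  rw [Subgroup.zpowers_le]
  exact gq_of_stb hφ1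

/-- The decomposition group of an unramified place is commutative. -/
theorem comm (hgal : IsGalois K F) {W : HeightOneSpectrum (𝓞 F)} (hram : ¬ H73P2.Ram K W)
    {g h : F ≃ₐ[K] F} (hg : H88OD.gq g • W = W) (hh : H88OD.gq h • W = W) : g * h = h * g := by
  obtain ⟨φ, hφ⟩ := cyc hgal hram
  have h1 : g ∈ Subgroup.zpowers φ := by
    rw [← hφ]
    exact hg
  have h2 : h ∈ Subgroup.zpowers φ := by
    rw [← hφ]
    exact hh
  obtain ⟨i, rfl⟩ := Subgroup.mem_zpowers_iff.1 h1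
  obtain ⟨j, rfl⟩ := Subgroup.mem_zpowers_iff.1 h2
  exact (Commute.zpow_zpow_self φ i j).eq

open scoped Pointwise in
/-- The order of the decomposition group. -/
theorem card_dec (hgal : IsGalois K F) {W : HeightOneSpectrum (𝓞 F)} (hram : ¬ H73P2.Ram K W)
    {H : Subgroup (F ≃ₐ[K] F)} (hH : ∀ g, g ∈ H ↔ H88OD.gq g • W = W) :
    Nat.card H = W.asIdeal.inertiaDeg (𝓞 K) := by
  have hwp := W.isPrime
  have hvp := (dn K W).isPrime
  have hwv : W.asIdeal.LiesOver (dn K W).asIdeal := ⟨rfl⟩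
  have hfin1 : Finite (𝓞 K ⧸ (dn K W).asIdeal) :=
    Ideal.finiteQuotientOfFreeOfNeBot _ (dn K W).ne_bot
  have hfin2 : Finite (𝓞 F ⧸ W.asIdeal) := Ideal.finiteQuotientOfFreeOfNeBot _ W.ne_bot
  have hmax : W.asIdeal.IsMaximal := W.isMaximal
  have hmax2 : (dn K W).asIdeal.IsMaximal := (dn K W).isMaximal
  have hG : IsGaloisGroup (F ≃ₐ[K] F) (𝓞 K) (𝓞 F) := IsGaloisGroup.of_isFractionRing _ _ _ K F
  have hs := Ideal.card_stabilizer_eq_card_inertia_mul_finrank (G := F ≃ₐ[K] F)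
    (dn K W).asIdeal W.asIdeal
  have hin : Nat.card (Ideal.inertia (F ≃ₐ[K] F) W.asIdeal) = 1 := by
    rw [H36AB.inertia_iff.1 hram]
    exact Subgroup.card_bot
  rw [hin, one_mul] at hs
  rw [← hs]
  have heq : H = MulAction.stabilizer (F ≃ₐ[K] F) W.asIdeal := by
    ext g
    rw [hH, MulAction.mem_stabilizer_iff]
    have h1 : ∀ x : 𝓞 F, H38T1.gO (H88OD.gq g)⁻¹ x = g⁻¹ • x := by
      intro x
      apply RingOfIntegers.ext
      rw [H38T1.gO_coe]
      rfl
    constructor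
    · intro h
      ext x
      rw [Ideal.mem_pointwise_smul_iff_inv_smul_mem, ← h1]
      have h2 := congrArg (fun V : HeightOneSpectrum (𝓞 F) => x ∈ V.asIdeal) h
      exact iff_of_eq h2
    · intro h
      apply HeightOneSpectrum.ext
      ext x
      change H38T1.gO (H88OD.gq g)⁻¹ x ∈ W.asIdeal ↔ x ∈ W.asIdeal
      rw [h1, ← Ideal.mem_pointwise_smul_iff_inv_smul_mem, h]
  rw [heq]

end Dec

section La

variable {K M : Type} [Field K] [NumberField K] [Field M] [NumberField M] [Algebra K M]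

theorem zmod2 (x : ZMod 2) : x = 0 ∨ x = 1 := by
  revert x
  decide

theorem sq_up (w : HeightOneSpectrum (𝓞 M)) {δ : K}
    (h : IsSquare (algebraMap K ((dn K w).adicCompletion K) δ)) :
    IsSquare (algebraMap M (w.adicCompletion M) (algebraMap K M δ)) := by
  have h1 := h.map (Pool.Agent.H10.adicLift (dn K w)
    ((algebraMap M (w.adicCompletion M)).comp (algebraMap K M))
    (Pool.Agent.H10.continuous_fromVal (dn K w) _ (H42GN.ig_nhds w)))
  rw [Pool.Agent.H10.adicLift_algebraMap] at h1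
  exact h1

theorem eo_unit {v : HeightOneSpectrum (𝓞 K)} {x : K} (hx : v.valuation K x = 1) :
    x ≠ 0 ∧ eo v (sc x) = 0 := by
  have hx0 : x ≠ 0 := by
    rintro rfl
    rw [map_zero] at hx
    exact zero_ne_one hx
  refine ⟨hx0, ?_⟩
  rw [H38T1.eo_sc hx0]
  unfold ord
  rw [hx, log_one, neg_zero, Int.cast_zero]

/-- The Legendre class of a unit in an extension. -/
theorem la_mul {w : HeightOneSpectrum (𝓞 M)} (hv : OddP (dn K w)) {x : K}
    (hx : (dn K w).valuation K x = 1) :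
    la w (sc (algebraMap K M x)) =
      (w.asIdeal.inertiaDeg (𝓞 K) : ZMod 2) * la (dn K w) (sc x) := by
  obtain ⟨hx0, e1⟩ := eo_unit hx
  have hvw : OddP w := by
    have h1 := H76PP.val_one (L := M) (w := w) (x := (2 : K)) hv
    rw [map_ofNat] at h1
    exact h1
  obtain ⟨hy0, e2⟩ := eo_unit (H76PP.val_one (L := M) (w := w) hx)
  rcases zmod2 (la (dn K w) (sc x)) with h | h
  · rw [h, mul_zero]
    have hsq := sq_up w (H36MX.sq_of_la hv hx0 e1 h)
    rcases zmod2 (la w (sc (algebraMap K M x))) with h2 | h2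
    · exact h2
    · exact absurd hsq (H36MX.nsq_of_la hvw hy0 h2 e2)
  · rw [h, mul_one]
    have hns := H36MX.nsq_of_la hv hx0 h e1
    have h4 := H76GM.sq_iff_deg hv rfl hx hns
    rcases zmod2 (la w (sc (algebraMap K M x))) with h2 | h2
    · rw [h2]
      symm
      rw [ZMod.natCast_eq_zero_iff_even]
      exact h4.1 (H36MX.sq_of_la hvw hy0 e2 h2)
    · rw [h2]
      have h5 := H36MX.nsq_of_la hvw hy0 h2 e2
      rw [h4, Nat.not_even_iff_odd] at h5
      symm
      exact ZMod.natCast_eq_one_iff_odd.2 h5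

end La

section Nb

variable {K L : Type} [Field K] [NumberField K] [Field L] [NumberField L] [Algebra K L]
  {v : HeightOneSpectrum (𝓞 K)} {θ : L}

/-- If there is a root modulo `v` then there are at least two places. -/
theorem nb_ge2 {A B : 𝓞 K} (h : Cub K L (A : K) (B : K) θ) (hv : OddP v)
    (h3 : v.valuation K 3 = 1)
    (hd : v.valuation K (4 * (A : K) ^ 3 + 27 * (B : K) ^ 2) = 1) {t : 𝓞 K}
    (ht : t ^ 3 + A * t + B ∈ v.asIdeal) : 2 ≤ nb K L v := by
  have hA : v.valuation K (A : K) ≤ 1 := v.valuation_le_one A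
  have hB : v.valuation K (B : K) ≤ 1 := v.valuation_le_one B
  have hco : ∀ x : 𝓞 K, x ∈ v.asIdeal ↔ v.valuation K (x : K) < 1 := fun x =>
    (v.valuation_lt_one_iff_mem (K := K) x).symm
  by_cases H2 : ∃ s : 𝓞 K, -3 * t ^ 2 - 4 * A - s ^ 2 ∈ v.asIdeal
  · obtain ⟨s, hs⟩ := H2
    rw [hco] at ht hs
    have e1 : ((t ^ 3 + A * t + B : 𝓞 K) : K) = (t : K) ^ 3 + (A : K) * (t : K) + (B : K) := by
      change algebraMap (𝓞 K) K _ = _
      simp only [map_add, map_mul, map_pow]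
    have e2 : ((-3 * t ^ 2 - 4 * A - s ^ 2 : 𝓞 K) : K) =
        -3 * (t : K) ^ 2 - 4 * (A : K) - (s : K) ^ 2 := by
      change algebraMap (𝓞 K) K _ = _
      simp only [map_sub, map_mul, map_pow, map_neg, map_ofNat]
    obtain ⟨e, he⟩ := H30OR.roots_of hv hA hB hd (v.valuation_le_one t)
      (lt_of_eq_of_lt (congrArg (v.valuation K) e1.symm) ht)
      (lt_of_eq_of_lt (congrArg (v.valuation K) e2.symm) hs)
    have hnb := H30OR.nb_eq3 h hd he
    omega
  · push Not at H2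
    have h6 : (6 : 𝓞 K) ∉ v.asIdeal := by
      rw [hco]
      intro h6
      have e1 : ((6 : 𝓞 K) : K) = 2 * 3 := by
        change algebraMap (𝓞 K) K 6 = _
        rw [map_ofNat]
        norm_num
      have h7 : v.valuation K (2 * 3) < 1 := lt_of_eq_of_lt (congrArg (v.valuation K) e1.symm) h6
      have h8 : v.valuation K 2 = 1 := hv
      rw [map_mul, h8, h3, one_mul] at h7
      exact lt_irrefl _ h7
    obtain ⟨w₁, w₂, htw⟩ := H76MQ.exists_TwT h (H30OR.dsc_notMem hd) h6 ⟨t, ht, H2⟩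
    have hD : (1 : K) ≠ 0 := one_ne_zero
    have hDe : Even (ord (v.valuation K) (1 : K)) := by
      unfold ord
      rw [map_one, log_one, neg_zero]
      exact ⟨0, rfl⟩
    have hE : H38T1.unif v ≠ 0 := by
      intro h0
      have h4 := H38T1.unif_spec v
      rw [h0, map_zero] at h4
      exact exp_ne_zero h4.symm
    have hEo : Odd (ord (v.valuation K) (H38T1.unif v)) := by
      unfold ord
      rw [H38T1.unif_spec, log_exp]
      exact ⟨0, rfl⟩
    obtain ⟨hnb, -⟩ := H30OR.loc2 h hv hd htw hD hDe hE hEo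
    omega

end Nb

section Par

variable {K F L : Type} [Field K] [NumberField K] [Field F] [NumberField F] [Field L]
  [NumberField L] [Algebra K F] [Algebra F L] {a b : K} {θ : L} {S : Ext K F L a b θ} {D : K}
  {Sg : Finset (HeightOneSpectrum (𝓞 K))}

/-- The Legendre class of the discriminant over `F` and over `K`. -/
theorem la_dis (ok : S.Ok D Sg) {W : HeightOneSpectrum (𝓞 F)} (hW : dn K W ∉ Sg) :
    la W (sc (-(4 * (algebraMap K F a) ^ 3 + 27 * (algebraMap K F b) ^ 2))) =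
      (W.asIdeal.inertiaDeg (𝓞 K) : ZMod 2) * la (dn K W) (sc (-(4 * a ^ 3 + 27 * b ^ 2))) := by
  have e : (-(4 * (algebraMap K F a) ^ 3 + 27 * (algebraMap K F b) ^ 2) : F) =
      algebraMap K F (-(4 * a ^ 3 + 27 * b ^ 2)) := by
    rw [map_neg, map_add, map_mul, map_mul, map_pow, map_pow, map_ofNat, map_ofNat]
  rw [e]
  refine la_mul (ok.two _ hW) ?_
  rw [Valuation.map_neg]
  exact ok.dis _ hW

/-- If there is one place over `F` then the Legendre class over `K` is trivial. -/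
theorem la_zero (S : Ext K F L a b θ) (ok : S.Ok D Sg)
    (h3 : ∀ v : HeightOneSpectrum (𝓞 K), v ∉ Sg → v.valuation K 3 = 1)
    {W : HeightOneSpectrum (𝓞 F)} (hW : dn K W ∉ Sg) (hnb : nb F L W = 1) :
    la (dn K W) (sc (-(4 * a ^ 3 + 27 * b ^ 2))) = 0 := by
  obtain ⟨A, hA⟩ := H42GN.ig_int S.ha
  obtain ⟨B, hB⟩ := H42GN.ig_int S.hb
  subst hA hB
  by_contra hne
  have H : ∃ t : 𝓞 K, t ^ 3 + A * t + B ∈ (dn K W).asIdeal := by
    by_contra H
    push Not at H
    exact hne (H30OR.la_no (ok.two _ hW) (ok.dis _ hW) H)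
  obtain ⟨t, ht⟩ := H
  have ht' : (algebraMap (𝓞 K) (𝓞 F) t) ^ 3 + algebraMap (𝓞 K) (𝓞 F) A *
      algebraMap (𝓞 K) (𝓞 F) t + algebraMap (𝓞 K) (𝓞 F) B ∈ W.asIdeal := by
    rw [← map_pow, ← map_mul, ← map_add, ← map_add]
    exact ht
  have hc : Cub F L ((algebraMap (𝓞 K) (𝓞 F) A : 𝓞 F) : F)
    ((algebraMap (𝓞 K) (𝓞 F) B : 𝓞 F) : F) θ := S.cub
  have h1 := nb_ge2 hc (H42GN.ig_two W (ok.two _ hW)) (H42GN.ig_three W (h3 _ hW))
    (H42GN.ig_disc W (ok.dis _ hW)) ht'
  omega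

/-- If there are two places over an extension `M` then the Legendre class over `K` is not trivial. -/
theorem la_of_mid {M LM : Type} [Field M] [NumberField M] [Field LM] [NumberField LM]
    [Algebra K M] [Algebra M LM] {θM : LM}
    (hc : Cub M LM (algebraMap K M a) (algebraMap K M b) θM)
    (ha : ∀ v : HeightOneSpectrum (𝓞 K), v.valuation K a ≤ 1)
    (hb : ∀ v : HeightOneSpectrum (𝓞 K), v.valuation K b ≤ 1) {u : HeightOneSpectrum (𝓞 M)}
    (h2 : (dn K u).valuation K 2 = 1) (h3 : (dn K u).valuation K 3 = 1)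
    (hd : (dn K u).valuation K (4 * a ^ 3 + 27 * b ^ 2) = 1) (hnb : nb M LM u = 2) :
    la (dn K u) (sc (-(4 * a ^ 3 + 27 * b ^ 2))) = 1 := by
  have hE : H38T1.unif u ≠ 0 := by
    intro h0
    have h4 := H38T1.unif_spec u
    rw [h0, map_zero] at h4
    exact exp_ne_zero h4.symm
  obtain ⟨m, r, s, hm1, -, hm2⟩ := H42GN.locD_of hc (fun w => H76PP.val_le (ha _))
    (fun w => H76PP.val_le (hb _)) (v := u) (H42GN.ig_two _ h2) (H42GN.ig_three _ h3)
    (H42GN.ig_disc _ hd) (D := 1) (E := H38T1.unif u) one_ne_zero (by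
      unfold ord
      rw [map_one, log_one, neg_zero]
      exact ⟨0, rfl⟩) hE (by
      unfold ord
      rw [H38T1.unif_spec, log_exp]
      exact ⟨0, rfl⟩)
  have hm : m = 1 := by omega
  have e : (-(4 * (algebraMap K M a) ^ 3 + 27 * (algebraMap K M b) ^ 2) : M) =
      algebraMap K M (-(4 * a ^ 3 + 27 * b ^ 2)) := by
    rw [map_neg, map_add, map_mul, map_mul, map_pow, map_pow, map_ofNat, map_ofNat]
  rw [e, la_mul h2 (by rw [Valuation.map_neg]; exact hd), hm, Nat.cast_one] at hm2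
  rcases zmod2 (la (dn K u) (sc (-(4 * a ^ 3 + 27 * b ^ 2)))) with h | h
  · rw [h, mul_zero] at hm2
    exact absurd hm2 one_ne_zero
  · exact h

/-- If `m = 1` then the decomposition group is of odd order. -/
theorem odd_of_one (S : Ext K F L a b θ) (ok : S.Ok D Sg) {W : HeightOneSpectrum (𝓞 F)}
    (hW : dn K W ∉ Sg) (hram : ¬ H73P2.Ram K W) {H : Subgroup (F ≃ₐ[K] F)}
    (hH : ∀ g, g ∈ H ↔ H88OD.gq g • W = W)
    (hm : la W (sc (-(4 * (algebraMap K F a) ^ 3 + 27 * (algebraMap K F b) ^ 2))) = 1) :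
    Odd (Nat.card H) := by
  rw [la_dis ok hW, ← card_dec S.gal hram hH] at hm
  rw [← Nat.not_even_iff_odd, ← ZMod.natCast_eq_zero_iff_even]
  intro h
  rw [h, zero_mul] at hm
  exact zero_ne_one hm

/-- **The parity.** -/
theorem par (ok : S.Ok D Sg)
    (h3 : ∀ v : HeightOneSpectrum (𝓞 K), v ∉ Sg → v.valuation K 3 = 1)
    (hram : ∀ V : HeightOneSpectrum (𝓞 F), dn K V ∉ Sg → ¬ H73P2.Ram K V) {δ : K} (hδ : δ ≠ 0)
    (hsq : ∀ u ∈ Sg, IsSquare (algebraMap K (u.adicCompletion K) δ))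
    (hpos : ∀ s : K →+* ℝ, 0 < s δ) {T : Finset (HeightOneSpectrum (𝓞 K))}
    (hT : ∀ v, v ∈ T ↔ v ∉ Sg ∧ Odd (ord (v.valuation K) δ))
    {W : {v // v ∈ T} → HeightOneSpectrum (𝓞 F)} (hW : ∀ v, dn K (W v) = v.1)
    {m : {v // v ∈ T} → ℕ} (hnb : ∀ v, nb F L (W v) = m v + 1)
    (hm : ∀ v, (m v : ZMod 2) =
      la (W v) (sc (-(4 * (algebraMap K F a) ^ 3 + 27 * (algebraMap K F b) ^ 2))))
    (H : {v // v ∈ T} → Subgroup (F ≃ₐ[K] F))
    (hH : ∀ v g, g ∈ H v ↔ H88OD.gq g • W v = W v)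
    (h2 : ∀ v, ¬ Odd (Nat.card (H v)) → m v = 2 →
      la v.1 (sc (-(4 * a ^ 3 + 27 * b ^ 2))) = 1) :
    Even (∑ v, if Odd (Nat.card (H v)) then m v else m v / 2) := by
  have hΔ : (-(4 * a ^ 3 + 27 * b ^ 2) : K) ≠ 0 := neg_ne_zero.2 S.dne
  have hSg : ∀ v : {v // v ∈ T}, dn K (W v) ∉ Sg := fun v => by
    rw [hW]
    exact ((hT v.1).1 v.2).1
  rw [← ZMod.natCast_eq_zero_iff_even, Nat.cast_sum]
  have h1 : ∀ v : {v // v ∈ T}, ((if Odd (Nat.card (H v)) then m v else m v / 2 : ℕ) : ZMod 2) =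
      la v.1 (sc (-(4 * a ^ 3 + 27 * b ^ 2))) := by
    intro v
    have e1 := hm v
    rw [la_dis ok (hSg v), ← card_dec S.gal (hram _ (hSg v)) (hH v), hW] at e1
    by_cases ho : Odd (Nat.card (H v))
    · rw [if_pos ho, e1, ZMod.natCast_eq_one_iff_odd.2 ho, one_mul]
    · rw [if_neg ho]
      have e2 : ((Nat.card (H v) : ℕ) : ZMod 2) = 0 := by
        rw [ZMod.natCast_eq_zero_iff_even]
        exact Nat.not_odd_iff_even.1 ho
      rw [e2, zero_mul, ZMod.natCast_eq_zero_iff_even] at e1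
      have h4 := H30OR.nb_le3 S.cub (W v)
      have h5 := hnb v
      have h6 : m v = 0 ∨ m v = 2 := by
        obtain ⟨n, hn⟩ := e1
        omega
      rcases h6 with h6 | h6
      · rw [h6, Nat.zero_div, Nat.cast_zero]
        have h7 := la_zero S ok h3 (hSg v) (by rw [h5, h6])
        rw [hW] at h7
        exact h7.symm
      · rw [h2 v ho h6, h6]
        rfl
  rw [Finset.sum_congr rfl fun v _ => h1 v, Finset.sum_coe_sort T fun v =>
    la v (sc (-(4 * a ^ 3 + 27 * b ^ 2)))]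
  exact H30OR.sum_la hΔ hδ (fun v hv => ok.two v hv)
    (fun v hv => by rw [Valuation.map_neg]; exact ok.dis v hv) hsq hpos hT

end Par

end H95G2
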